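import Mathlib

/-!
# Every simple polygon can be carried to every regular polygon by vertex-centroid moves

The points of the plane are complex numbers. A polygon with `n` vertices is a map `Fin n → ℂ`.
-/

set_option autoImplicit false

open Finset Function

namespace Pool.Agent.Results.MP_06c496_co.EveryRegularPolygon

/-- The vertex centroid of a polygon, the average of its vertices. -/
noncomputable def centroid {n : ℕ} (v : Fin n → ℂ) : ℂ := (∑ i, v i) / n

/-- One vertex-centroid move carries the polygon `v` to the polygon `w`: one vertex `v i`, different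
from the vertex centroid `m` of `v`, is replaced by a point `v i + t (m - v i)`, `t` real, of the
line through `v i` and `m`. -/
def Move {n : ℕ} (v w : Fin n → ℂ) : Prop :=
  ∃ i : Fin n, v i ≠ centroid v ∧
    ∃ t : ℝ, w = update v i (v i + t * (centroid v - v i))

/-- The polygon `v` can be carried to `w` by a finite sequence of vertex-centroid moves. -/
def CanBeCarried {n : ℕ} (v w : Fin n → ℂ) : Prop := Relation.ReflTransGen Move v w

/-- Simple polygons with the vertices `v 0, …, v (n - 1)` in this cyclic order (`finRotate n i` is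
the cyclic successor of `i`): the vertices are distinct, and two different edges have no point in
common except for common endpoints. -/
def IsSimplePolygon {n : ℕ} (v : Fin n → ℂ) : Prop :=
  Injective v ∧ ∀ i j : Fin n, i ≠ j →
    segment ℝ (v i) (v (finRotate n i)) ∩ segment ℝ (v j) (v (finRotate n j)) =
      {v i, v (finRotate n i)} ∩ {v j, v (finRotate n j)}

/-- Regular polygons: `w 0, …, w (n - 1)` are the vertices of a convex regular `n`-gon in this
cyclic order, counterclockwise or clockwise. -/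
def IsRegularPolygon {n : ℕ} (w : Fin n → ℂ) : Prop :=
  ∃ c z : ℂ, z ≠ 0 ∧
    ((∀ k : Fin n, w k = c + z * Complex.exp (2 * Real.pi * Complex.I * k / n)) ∨
      (∀ k : Fin n, w k = c + z * Complex.exp (-(2 * Real.pi * Complex.I * k / n))))

/-! ### Two vertices -/

lemma core (l : ℝ) (h0 : 0 < l) (h1 : l < 1) (R : ℂ → ℂ → ℂ → ℂ → Prop)
    (tr : ∀ a b c d e f, R a b c d → R c d e f → R a b e f)
    (hA : ∀ (a b : ℂ) (s : ℝ), R a b (l * b + s * (a - l * b)) b)
    (hB : ∀ (a b : ℂ) (s : ℝ), R a b a (l * a + s * (b - l * a)))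
    (a b : ℂ) (α : ℝ) : R a b a (α * b) := by
  by_cases h : α = 1
  · have := hA a b 1
    simpa [h] using this
  · have hm : (α - 1) ≠ 0 := sub_ne_zero.mpr h
    have k1 : (1 - l ^ 2) ≠ 0 := by nlinarith
    have k2 : (2 + l ^ 2) ≠ 0 := by positivity
    have k3 : (6 + l ^ 2) ≠ 0 := by positivity
    have k4 : (4 + l ^ 2) ≠ 0 := by positivity
    have k5 : (2 - l ^ 2) ≠ 0 := by nlinarith
    set s' : ℝ := (α - 1) * (6 + l ^ 2) / ((1 - l ^ 2) * (2 + l ^ 2)) with hs'
    set s : ℝ := α * (1 - l ^ 2) * (2 + l ^ 2) / ((α - 1) * (4 + l ^ 2) * (2 - l ^ 2)) with hs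
    set v : ℝ := (4 + l ^ 2) / (6 + l ^ 2) with hv
    set w : ℝ := (2 - l ^ 2) / 8 with hw
    obtain ⟨b1, hb1⟩ : ∃ b1, b1 = l * a + s * (b - l * a) := ⟨_, rfl⟩
    obtain ⟨a1, ha1⟩ : ∃ a1, a1 = l * b1 + (2 : ℝ) * (a - l * b1) := ⟨_, rfl⟩
    obtain ⟨b2, hb2⟩ : ∃ b2, b2 = l * a1 + (2 : ℝ) * (b1 - l * a1) := ⟨_, rfl⟩
    obtain ⟨a2, ha2⟩ : ∃ a2, a2 = l * b2 + (2 : ℝ) * (a1 - l * b2) := ⟨_, rfl⟩
    obtain ⟨b3, hb3⟩ : ∃ b3, b3 = l * a2 + v * (b2 - l * a2) := ⟨_, rfl⟩
    have ha3 : a = l * b3 + w * (a2 - l * b3) := by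
      have kc : (6 + (l : ℂ) ^ 2) ≠ 0 := by exact_mod_cast k3
      rw [hb3, ha2, hb2, ha1, hv, hw]
      push_cast
      field_simp
      ring
    have hb4 : (α : ℂ) * b = l * a + s' * (b3 - l * a) := by
      have kc : (6 + (l : ℂ) ^ 2) ≠ 0 := by exact_mod_cast k3
      have kc1 : (1 - (l : ℂ) ^ 2) ≠ 0 := by exact_mod_cast k1
      have kc2 : (2 + (l : ℂ) ^ 2) ≠ 0 := by exact_mod_cast k2
      have kc4 : (4 + (l : ℂ) ^ 2) ≠ 0 := by exact_mod_cast k4
      have kc5 : (2 - (l : ℂ) ^ 2) ≠ 0 := by exact_mod_cast k5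
      have kcm : ((α : ℂ) - 1) ≠ 0 := by exact_mod_cast hm
      rw [hb3, ha2, hb2, ha1, hb1, hv, hs', hs]
      push_cast
      field_simp
      ring
    have r1 : R a b a b1 := by rw [hb1]; exact hB a b s
    have r2 : R a b1 a1 b1 := by rw [ha1]; exact hA a b1 2
    have r3 : R a1 b1 a1 b2 := by rw [hb2]; exact hB a1 b1 2
    have r4 : R a1 b2 a2 b2 := by rw [ha2]; exact hA a1 b2 2
    have r5 : R a2 b2 a2 b3 := by rw [hb3]; exact hB a2 b2 v
    have r6 : R a2 b3 a b3 := by
      have := hA a2 b3 w
      rwa [← ha3] at this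
    have r7 : R a b3 a (α * b) := by rw [hb4]; exact hB a b3 s'
    exact tr _ _ _ _ _ _ r1 (tr _ _ _ _ _ _ r2 (tr _ _ _ _ _ _ r3 (tr _ _ _ _ _ _ r4
      (tr _ _ _ _ _ _ r5 (tr _ _ _ _ _ _ r6 r7)))))

/-! ### Moves -/

lemma CanBeCarried.tr {n : ℕ} {u v w : Fin n → ℂ} (h1 : CanBeCarried u v)
    (h2 : CanBeCarried v w) : CanBeCarried u w := Relation.ReflTransGen.trans h1 h2

lemma sum_upd {n : ℕ} (v : Fin n → ℂ) (i : Fin n) (x : ℂ) :
    ∑ k, update v i x k = ∑ k, v k - v i + x := by
  rw [Finset.sum_update_of_mem (Finset.mem_univ i), ← Finset.sum_erase_add _ _ (Finset.mem_univ i)]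
  rw [Finset.sdiff_singleton_eq_erase]
  ring

/-- The vertex `i` can be scaled about the average of the other vertices. -/
lemma basic {n : ℕ} (hn : 3 ≤ n) (v : Fin n → ℂ) (i : Fin n) (s : ℝ) (c : ℂ)
    (hc : (n - 1 : ℂ) * c = ∑ k, v k - v i) :
    CanBeCarried v (update v i (c + s * (v i - c))) := by
  have hn0 : (n : ℂ) ≠ 0 := by
    have : n ≠ 0 := by omega
    exact_mod_cast this
  have hn1 : (n : ℂ) - 1 ≠ 0 := by
    intro h
    have h2 : (n : ℂ) = ((1 : ℕ) : ℂ) := by push_cast; linear_combination h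
    have h3 : n = 1 := by exact_mod_cast h2
    omega
  by_cases h : v i = centroid v
  · have hcv : c = v i := by
      have h2 : (n : ℂ) * v i = ∑ k, v k := by
        rw [h, centroid]; field_simp
      have h3 : (n - 1 : ℂ) * c = (n - 1) * v i := by rw [hc, ← h2]; ring
      exact mul_left_cancel₀ hn1 h3
    have : update v i (c + s * (v i - c)) = v := by
      rw [hcv]; simp
    rw [this]
    exact Relation.ReflTransGen.refl
  · refine Relation.ReflTransGen.single ⟨i, h, (1 - s) * n / (n - 1), ?_⟩
    congr 1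
    have : centroid v = ((n - 1) * c + v i) / n := by
      rw [centroid, hc]; congr 1; ring
    rw [this]
    push_cast
    field_simp
    ring

/-- The vertex `j` can be scaled about the average `o` of the vertices different from `i`, `j`. -/
lemma scale {n : ℕ} (hn : 3 ≤ n) (v : Fin n → ℂ) (i j : Fin n) (hij : i ≠ j) (α : ℝ) (o : ℂ)
    (ho : (n - 2 : ℂ) * o = ∑ k, v k - v i - v j) :
    CanBeCarried v (update v j (o + α * (v j - o))) := by
  have hnr : (3 : ℝ) ≤ n := by exact_mod_cast hn
  have hn1 : (n : ℂ) - 1 ≠ 0 := by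
    intro h
    have h2 : (n : ℂ) = ((1 : ℕ) : ℂ) := by push_cast; linear_combination h
    have h3 : n = 1 := by exact_mod_cast h2
    omega
  set l : ℝ := 1 / (n - 1) with hl
  have l0 : 0 < l := by rw [hl]; apply div_pos one_pos; linarith
  have l1 : l < 1 := by rw [hl, div_lt_one (by linarith)]; linarith
  have lc : (n - 1 : ℂ) * (l : ℂ) = 1 := by rw [hl]; push_cast; field_simp
  have key := core l l0 l1
    (fun a b c d => CanBeCarried (update (update v i (o + a)) j (o + b))
      (update (update v i (o + c)) j (o + d)))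
    (fun a b c d e f h1 h2 => h1.tr h2) ?_ ?_ (v i - o) (v j - o) α
  · have e1 : update (update v i (o + (v i - o))) j (o + (v j - o)) = v := by
      simp
    have e2 : update (update v i (o + (v i - o))) j (o + (α * (v j - o))) =
        update v j (o + α * (v j - o)) := by
      simp
    rw [e1, e2] at key
    exact key
  · intro a b s
    have := basic hn (update (update v i (o + a)) j (o + b)) i s (o + l * b) (by
      rw [sum_upd, sum_upd, update_of_ne hij, update_self, update_of_ne hij.symm]
      linear_combination ho + b * lc)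
    convert this using 1
    rw [update_comm hij.symm, update_idem, update_of_ne hij, update_self]
    have e : o + (l * b + s * (a - l * b)) = o + l * b + s * (o + a - (o + l * b)) := by ring
    rw [e]
  · intro a b s
    have := basic hn (update (update v i (o + a)) j (o + b)) j s (o + l * a) (by
      rw [sum_upd, sum_upd, update_of_ne hij.symm, update_self]
      linear_combination ho + a * lc)
    convert this using 1
    rw [update_idem, update_self]
    congr 1
    ring

/-- The vertex `i` can be translated by real multiples of differences of other vertices. -/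
lemma translate {n : ℕ} (hn : 3 ≤ n) (v : Fin n → ℂ) (i j k : Fin n) (hj : j ≠ i) (hk : k ≠ i)
    (c : ℝ) : CanBeCarried v (update v i (v i + c * (v k - v j))) := by
  have hnr : (3 : ℝ) ≤ n := by exact_mod_cast hn
  have hn2 : (n : ℂ) - 2 ≠ 0 := by
    intro h
    have h2 : (n : ℂ) = ((2 : ℕ) : ℂ) := by push_cast; linear_combination h
    have h3 : n = 2 := by exact_mod_cast h2
    omega
  have main : ∀ (v : Fin n → ℂ) (c : ℝ), c * (n - 2) ≠ 1 →
      CanBeCarried v (update v i (v i + c * (v k - v j))) := by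
    intro v c hc
    have hd : (1 : ℝ) - c * (n - 2) ≠ 0 := fun h => hc (by linarith)
    have hdc : (1 : ℂ) - c * (n - 2) ≠ 0 := by exact_mod_cast hd
    obtain ⟨o, ho⟩ : ∃ o : ℂ, (n - 2 : ℂ) * o = ∑ m, v m - v k - v i :=
      ⟨(∑ m, v m - v k - v i) / (n - 2), by field_simp⟩
    obtain ⟨o', ho'⟩ : ∃ o : ℂ, (n - 2 : ℂ) * o = ∑ m, v m - v j - v i :=
      ⟨(∑ m, v m - v j - v i) / (n - 2), by field_simp⟩
    have h1 := scale hn v k i hk (1 / (1 - c * (n - 2))) o ho
    have h2 := scale hn (update v i (o + (1 / (1 - c * (n - 2)) : ℝ) * (v i - o))) j i hj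
      (1 - c * (n - 2)) o' (by
        rw [sum_upd, update_self, update_of_ne hj, ho']; ring)
    have h3 := h1.tr h2
    rw [update_idem, update_self] at h3
    convert h3 using 2
    have e : (n - 2 : ℂ) * (o' - o) = v k - v j := by rw [mul_sub, ho, ho']; ring
    rw [← e]
    push_cast
    field_simp
    ring
  by_cases h : c * (n - 2) = 1
  · have h1 := main v (c / 2) (by intro h2; nlinarith)
    have h2 := main (update v i (v i + (c / 2 : ℝ) * (v k - v j))) (c / 2)
      (by intro h2; nlinarith)
    have h3 := h1.tr h2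
    rw [update_idem, update_self, update_of_ne hj, update_of_ne hk] at h3
    convert h3 using 2
    push_cast
    ring
  · exact main v c h

/-- Twice the signed area of a triangle. -/
def T (a b c : ℂ) : ℝ := (b.re - a.re) * (c.im - a.im) - (b.im - a.im) * (c.re - a.re)

lemma T_rot (a b c : ℂ) : T a b c = T b c a := by simp only [T]; ring

lemma T_swap (a b c : ℂ) : T a b c = - T a c b := by simp only [T]; ring

lemma T_comb (a b x y : ℂ) (s : ℝ) :
    T (x + s * (y - x)) a b = T x a b + s * (T y a b - T x a b) := by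
  simp only [T, Complex.add_re, Complex.add_im, Complex.mul_re, Complex.mul_im, Complex.sub_re,
    Complex.sub_im, Complex.ofReal_re, Complex.ofReal_im]
  ring

/-- Points at the same distance of a line differ by a multiple of its direction. -/
lemma exists_translate (a b x y : ℂ) (hab : a ≠ b) (h : T x a b = T y a b) :
    ∃ c : ℝ, y = x + c * (b - a) := by
  set e := b - a with he
  have he0 : e ≠ 0 := sub_ne_zero.mpr hab.symm
  have hN : e.re * e.re + e.im * e.im ≠ 0 := by
    intro h0
    apply he0
    apply Complex.ext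
    · simp only [Complex.zero_re]; nlinarith [mul_self_nonneg e.re, mul_self_nonneg e.im]
    · simp only [Complex.zero_im]; nlinarith [mul_self_nonneg e.re, mul_self_nonneg e.im]
  have hb : b = a + e := by rw [he]; ring
  have h2 : (y.re - x.re) * e.im = (y.im - x.im) * e.re := by
    have : T x a b = T y a b := h
    rw [hb] at this
    simp only [T, Complex.add_re, Complex.add_im] at this
    linarith
  refine ⟨((y.re - x.re) * e.re + (y.im - x.im) * e.im) / (e.re * e.re + e.im * e.im), ?_⟩
  apply Complex.ext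
  · simp only [Complex.add_re, Complex.mul_re, Complex.ofReal_re, Complex.ofReal_im, zero_mul,
      sub_zero]
    rw [div_mul_eq_mul_div, ← sub_eq_iff_eq_add', eq_div_iff hN]
    linear_combination e.im * h2
  · simp only [Complex.add_im, Complex.mul_im, Complex.ofReal_re, Complex.ofReal_im, zero_mul,
      add_zero]
    rw [div_mul_eq_mul_div, ← sub_eq_iff_eq_add', eq_div_iff hN]
    linear_combination (-e.re) * h2

lemma T_ne {a b c : ℂ} (h : T a b c ≠ 0) : b ≠ c := by
  rintro rfl
  apply h
  simp only [T]; ring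

/-- Relocation of one vertex, first case. -/
lemma move_any1 {n : ℕ} (hn : 3 ≤ n) (v : Fin n → ℂ) (i j k : Fin n) (hj : j ≠ i) (hk : k ≠ i)
    (hjk : v j ≠ v k) (c : ℂ) (hc : (n - 1 : ℂ) * c = ∑ m, v m - v i)
    (h : T (v i) (v j) (v k) ≠ T c (v j) (v k)) (x : ℂ) :
    CanBeCarried v (update v i x) := by
  set s : ℝ := (T x (v j) (v k) - T c (v j) (v k)) / (T (v i) (v j) (v k) - T c (v j) (v k))
    with hs
  have h1 := basic hn v i s c hc
  have hT : T (c + s * (v i - c)) (v j) (v k) = T x (v j) (v k) := by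
    rw [T_comb, hs]
    have := sub_ne_zero.mpr h
    field_simp
    ring
  obtain ⟨r, hr⟩ := exists_translate (v j) (v k) _ _ hjk hT
  have h2 := translate hn (update v i (c + s * (v i - c))) i j k hj hk r
  have h3 := h1.tr h2
  rw [update_idem, update_self, update_of_ne hj, update_of_ne hk, ← hr] at h3
  exact h3

/-- Relocation of one vertex. -/
lemma move_any {n : ℕ} (hn : 3 ≤ n) (v : Fin n → ℂ) (i j k : Fin n) (hj : j ≠ i) (hk : k ≠ i)
    (h : T (v i) (v j) (v k) ≠ 0) (x : ℂ) : CanBeCarried v (update v i x) := by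
  have hnr : (3 : ℝ) ≤ n := by exact_mod_cast hn
  have hn1 : (n : ℂ) - 1 ≠ 0 := by
    intro h
    have h2 : (n : ℂ) = ((1 : ℕ) : ℂ) := by push_cast; linear_combination h
    have h3 : n = 1 := by exact_mod_cast h2
    omega
  have hn2 : (n : ℂ) - 2 ≠ 0 := by
    intro h
    have h2 : (n : ℂ) = ((2 : ℕ) : ℂ) := by push_cast; linear_combination h
    have h3 : n = 2 := by exact_mod_cast h2
    omega
  have hjk : v j ≠ v k := T_ne h
  obtain ⟨c, hc⟩ : ∃ c : ℂ, (n - 1 : ℂ) * c = ∑ m, v m - v i :=
    ⟨(∑ m, v m - v i) / (n - 1), by field_simp⟩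
  by_cases h1 : T (v i) (v j) (v k) = T c (v j) (v k)
  · obtain ⟨o, ho⟩ : ∃ o : ℂ, (n - 2 : ℂ) * o = ∑ m, v m - v j - v i :=
      ⟨(∑ m, v m - v j - v i) / (n - 2), by field_simp⟩
    -- the functional at `o`
    have e1 : (n - 2 : ℂ) * (o - v j) = (n - 1) * (c - v j) := by
      linear_combination ho - hc
    have e2 : ((n : ℝ) - 2) * T o (v j) (v k) = (n - 1) * T c (v j) (v k) := by
      have r1 := congrArg Complex.re e1
      have r2 := congrArg Complex.im e1
      simp only [Complex.mul_re, Complex.mul_im, Complex.sub_re, Complex.sub_im,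
        Complex.natCast_re, Complex.natCast_im, Complex.one_re, Complex.one_im,
        Complex.re_ofNat, Complex.im_ofNat] at r1 r2
      simp only [T]
      linear_combination ((v k).im - (v j).im) * (-r1) + ((v k).re - (v j).re) * r2
    have h2 := scale hn v j i hj 2 o ho
    refine h2.tr ?_
    have h3 := move_any1 hn (update v i (o + (2 : ℝ) * (v i - o))) i j k hj hk
      (by rw [update_of_ne hj, update_of_ne hk]; exact hjk) c
      (by rw [sum_upd, update_self, hc]; ring)
      (by
        rw [update_self, update_of_ne hj, update_of_ne hk, T_comb]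
        intro h4
        apply h
        rw [← h1] at h4 e2
        nlinarith) x
    rwa [update_idem] at h3
  · exact move_any1 hn v i j k hj hk hjk c hc h1 x

/-! ### Triangles -/

lemma avoid_two (f g : ℂ → ℝ) (hf : ∀ x y : ℂ, f ((x + y) / 2) = (f x + f y) / 2)
    (hg : ∀ x y : ℂ, g ((x + y) / 2) = (g x + g y) / 2) (a b : ℂ) (ha : f a ≠ 0) (hb : g b ≠ 0) :
    ∃ x, f x ≠ 0 ∧ g x ≠ 0 := by
  by_cases h1 : g a = 0
  · by_cases h2 : f b = 0
    · refine ⟨(a + b) / 2, ?_, ?_⟩
      · rw [hf, h2]; simpa using ha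
      · rw [hg, h1]; simpa using hb
    · exact ⟨b, h2, hb⟩
  · exact ⟨a, ha, h1⟩

lemma T_mid1 (a b x y : ℂ) : T ((x + y) / 2) a b = (T x a b + T y a b) / 2 := by
  have := T_comb a b x y (1 / 2)
  have e : x + ((1 / 2 : ℝ) : ℂ) * (y - x) = (x + y) / 2 := by push_cast; ring
  rw [e] at this
  rw [this]; ring

lemma triangle {n : ℕ} (hn : 3 ≤ n) (v : Fin n → ℂ) (p q r : Fin n) (hpq : p ≠ q) (hpr : p ≠ r)
    (hqr : q ≠ r) (h : T (v p) (v q) (v r) ≠ 0) (A' B' C' : ℂ) (h' : T A' B' C' ≠ 0) :
    CanBeCarried v (update (update (update v p A') q B') r C') := by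
  obtain ⟨X, hX1, hX2⟩ := avoid_two (fun x => T x (v q) (v r)) (fun x => T x B' C')
    (fun x y => T_mid1 _ _ x y) (fun x y => T_mid1 _ _ x y) (v p) A' h h'
  obtain ⟨Y, hY1, hY2⟩ := avoid_two (fun y => T y (v r) X) (fun y => T y C' X)
    (fun x y => T_mid1 _ _ x y) (fun x y => T_mid1 _ _ x y) (v q) B'
    (by rw [← T_rot]; exact hX1) (by rw [← T_rot]; exact hX2)
  have s1 := move_any hn v p q r hpq.symm hpr.symm h X
  have s2 := move_any hn (update v p X) q r p hqr.symm hpq (by
    rw [update_of_ne hpq.symm, update_of_ne hpr.symm, update_self, ← T_rot]; exact hX1) Y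
  have s3 := move_any hn (update (update v p X) q Y) r p q hpr hqr (by
    rw [update_of_ne hqr.symm, update_of_ne hpr.symm, update_of_ne hpq, update_self, update_self,
      ← T_rot]; exact hY1) C'
  have s4 := move_any hn (update (update (update v p X) q Y) r C') q r p hqr.symm hpq (by
    rw [update_of_ne hqr, update_self, update_self, update_of_ne hpr, update_of_ne hpq,
      update_self]; exact hY2) B'
  have s5 := move_any hn (update (update (update (update v p X) q Y) r C') q B') p q r
    hpq.symm hpr.symm (by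
    rw [update_of_ne hpq, update_self, update_of_ne hpr, update_of_ne hpq, update_self,
      update_of_ne hqr.symm, update_self]; exact hX2) A'
  have s := s1.tr (s2.tr (s3.tr (s4.tr s5)))
  convert s using 1
  ext m
  by_cases m1 : m = p
  · subst m1; simp [hpq, hpr]
  · by_cases m2 : m = q
    · subst m2; simp [hqr, m1]
    · by_cases m3 : m = r
      · subst m3; simp [m1, m2]
      · simp [m1, m2, m3]

/-! ### All vertices -/

/-- A point is not on all three lines through pairs of vertices of a triangle. -/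
lemma off_line (p q r x : ℂ) (h : T p q r ≠ 0) :
    T x p q ≠ 0 ∨ T x q r ≠ 0 ∨ T x r p ≠ 0 := by
  by_contra hcon
  push Not at hcon
  obtain ⟨h1, h2, h3⟩ := hcon
  apply h
  have : T p q r = T x p q + T x q r + T x r p := by simp only [T]; ring
  rw [this, h1, h2, h3]; ring

lemma others {n : ℕ} (hn : 3 ≤ n) (v w : Fin n → ℂ) (p q r : Fin n) (hpq : p ≠ q) (hpr : p ≠ r)
    (hqr : q ≠ r) (h : T (v p) (v q) (v r) ≠ 0) (S : Finset (Fin n)) (hp : p ∉ S) (hq : q ∉ S)
    (hr : r ∉ S) : CanBeCarried v (fun m => if m ∈ S then w m else v m) := by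
  induction S using Finset.induction_on with
  | empty =>
    simp only [Finset.notMem_empty, if_false]
    exact Relation.ReflTransGen.refl
  | insert i S hi ih =>
    simp only [Finset.mem_insert, not_or] at hp hq hr
    have ih' := ih hp.2 hq.2 hr.2
    refine ih'.tr ?_
    set u : Fin n → ℂ := fun m => if m ∈ S then w m else v m with hu
    have up : u p = v p := by simp [hu, hp.2]
    have uq : u q = v q := by simp [hu, hq.2]
    have ur : u r = v r := by simp [hu, hr.2]
    have key : CanBeCarried u (update u i (w i)) := by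
      rcases off_line (v p) (v q) (v r) (u i) h with h1 | h1 | h1
      · exact move_any hn u i p q hp.1 hq.1 (by rw [up, uq]; exact h1) _
      · exact move_any hn u i q r hq.1 hr.1 (by rw [uq, ur]; exact h1) _
      · exact move_any hn u i r p hr.1 hp.1 (by rw [ur, up]; exact h1) _
    convert key using 1
    ext m
    by_cases m1 : m = i
    · subst m1; simp
    · simp [m1, hu]

lemma main {n : ℕ} (hn : 3 ≤ n) (v w : Fin n → ℂ) (p q r : Fin n) (hpq : p ≠ q) (hpr : p ≠ r)
    (hqr : q ≠ r) (h : T (v p) (v q) (v r) ≠ 0) (h' : T (w p) (w q) (w r) ≠ 0) :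
    CanBeCarried v w := by
  have h1 := others hn v w p q r hpq hpr hqr h (Finset.univ \ {p, q, r}) (by simp) (by simp)
    (by simp)
  refine h1.tr ?_
  set u : Fin n → ℂ := fun m => if m ∈ (Finset.univ \ {p, q, r} : Finset (Fin n)) then w m else v m
    with hu
  have up : u p = v p := by simp [hu]
  have uq : u q = v q := by simp [hu]
  have ur : u r = v r := by simp [hu]
  have h2 := triangle hn u p q r hpq hpr hqr (by rw [up, uq, ur]; exact h) (w p) (w q) (w r) h'
  convert h2 using 1
  ext m
  by_cases m3 : m = r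
  · subst m3; simp
  · by_cases m2 : m = q
    · subst m2; simp [hqr]
    · by_cases m1 : m = p
      · subst m1; simp [hpq, hpr]
      · simp [hu, m1, m2, m3]

/-! ### Simple polygons are not collinear, and neither are regular polygons -/

lemma simple_noncollinear {n : ℕ} (hn : 3 ≤ n) (v : Fin n → ℂ) (hv : IsSimplePolygon v) :
    ∃ p q r : Fin n, p ≠ q ∧ p ≠ r ∧ q ≠ r ∧ T (v p) (v q) (v r) ≠ 0 := by
  obtain ⟨m, rfl⟩ : ∃ m, n = m + 3 := ⟨n - 3, by omega⟩
  obtain ⟨hinj, hseg⟩ := hv
  by_contra hcon
  push Not at hcon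
  have hT : ∀ p q r : Fin (m + 3), T (v p) (v q) (v r) = 0 := by
    intro p q r
    by_cases h1 : p = q
    · subst h1; simp only [T]; ring
    · by_cases h2 : p = r
      · subst h2; simp only [T]; ring
      · by_cases h3 : q = r
        · subst h3; simp only [T]; ring
        · exact hcon p q r h1 h2 h3
  set e : ℂ := v 1 - v 0 with he
  have h01 : v 0 ≠ v 1 := fun h => by
    have := hinj h
    simp at this
  have he0 : e ≠ 0 := sub_ne_zero.mpr h01.symm
  have hN : 0 < e.re * e.re + e.im * e.im := by
    have h1 := mul_self_nonneg e.re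
    have h2 := mul_self_nonneg e.im
    rcases lt_or_eq_of_le (add_nonneg h1 h2) with h | h
    · exact h
    · exfalso
      apply he0
      apply Complex.ext
      · simp only [Complex.zero_re]; nlinarith
      · simp only [Complex.zero_im]; nlinarith
  -- positions on the line
  have hline : ∀ i j : Fin (m + 3), ∃ c : ℝ, v j = v i + c * e := by
    intro i j
    exact exists_translate (v 0) (v 1) (v i) (v j) h01 (by rw [hT, hT])
  choose f hf using fun i => hline 0 i
  obtain ⟨i, -, hi⟩ := Finset.exists_min_image (Finset.univ : Finset (Fin (m + 3))) f ⟨0, by simp⟩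
  have hi' : ∀ j, f i ≤ f j := fun j => hi j (Finset.mem_univ j)
  set a := finRotate (m + 3) i with ha
  set b := (finRotate (m + 3)).symm i with hb
  have hbi : finRotate (m + 3) b = i := by simp [hb]
  have hab : a ≠ b := by
    intro h
    have h1 : finRotate (m + 3) a = i := by rw [h]; exact hbi
    rw [ha, finRotate_apply, finRotate_apply] at h1
    have h2 : (1 + 1 : Fin (m + 3)) = 0 := by
      have : i + (1 + 1) = i + 0 := by rw [← add_assoc, h1, add_zero]
      exact add_left_cancel this
    have h3 := congrArg Fin.val h2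
    rw [Fin.val_add] at h3
    simp at h3
    rw [Nat.mod_eq_of_lt (by omega)] at h3
    omega
  have hai : a ≠ i := by
    intro h
    rw [ha, finRotate_apply] at h
    have h2 : (1 : Fin (m + 3)) = 0 := by
      have : i + 1 = i + 0 := by rw [h, add_zero]
      exact add_left_cancel this
    have h3 := congrArg Fin.val h2
    simp at h3
  have hbi' : b ≠ i := by
    intro h
    have h1 : finRotate (m + 3) i = i := by rw [h] at hbi; exact hbi
    exact hai h1
  have hib : i ≠ b := hbi'.symm
  have hs := hseg i b hib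
  rw [hbi, ← ha] at hs
  -- general fact
  have fact : ∀ x y : Fin (m + 3), x ≠ i → y ≠ i → f x ≤ f y → v x ∈ segment ℝ (v i) (v y) := by
    intro x y hx hy hxy
    have hx' : f i < f x := by
      rcases lt_or_eq_of_le (hi' x) with h | h
      · exact h
      · exfalso; apply hx; apply hinj; rw [hf x, hf i, h]
    rw [segment_eq_image']
    refine ⟨(f x - f i) / (f y - f i), ⟨?_, ?_⟩, ?_⟩
    · apply div_nonneg <;> linarith
    · rw [div_le_one (by linarith)]; linarith
    · simp only [Complex.real_smul]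
      have hne : ((f y : ℂ) - f i) ≠ 0 := by
        have : f y - f i ≠ 0 := by linarith
        exact_mod_cast this
      rw [hf x, hf y, hf i]
      push_cast
      field_simp
      ring
  rcases le_total (f a) (f b) with h | h
  · have h1 : v a ∈ segment ℝ (v i) (v b) := fact a b hai hbi' h
    have h2 : v a ∈ segment ℝ (v i) (v a) ∩ segment ℝ (v b) (v i) :=
      ⟨right_mem_segment _ _ _, by rwa [segment_symm]⟩
    rw [hs] at h2
    rcases h2.2 with h3 | h3
    · exact hab (hinj h3)
    · exact hai (hinj h3)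
  · have h1 : v b ∈ segment ℝ (v i) (v a) := fact b a hbi' hai h
    have h2 : v b ∈ segment ℝ (v i) (v a) ∩ segment ℝ (v b) (v i) :=
      ⟨h1, left_mem_segment _ _ _⟩
    rw [hs] at h2
    rcases h2.1 with h3 | h3
    · exact hbi' (hinj h3)
    · exact hab (hinj h3).symm

lemma circle (a b c : ℂ) (hab : a ≠ b) (hac : a ≠ c) (hbc : b ≠ c) (ρ : ℝ)
    (h1 : a.re * a.re + a.im * a.im = ρ) (h2 : b.re * b.re + b.im * b.im = ρ)
    (h3 : c.re * c.re + c.im * c.im = ρ) : T a b c ≠ 0 := by
  intro h
  obtain ⟨l, hl⟩ := exists_translate a b a c hab (by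
    rw [T_rot c a b, h]; simp only [T]; ring)
  have hre : c.re = a.re + l * (b.re - a.re) := by
    rw [hl]; simp
  have him : c.im = a.im + l * (b.im - a.im) := by
    rw [hl]; simp
  have hN : (b.re - a.re) * (b.re - a.re) + (b.im - a.im) * (b.im - a.im) ≠ 0 := by
    intro h0
    apply hab
    apply Complex.ext
    · nlinarith [mul_self_nonneg (b.re - a.re), mul_self_nonneg (b.im - a.im)]
    · nlinarith [mul_self_nonneg (b.re - a.re), mul_self_nonneg (b.im - a.im)]
  have key : l * (l - 1) *
      ((b.re - a.re) * (b.re - a.re) + (b.im - a.im) * (b.im - a.im)) = 0 := by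
    rw [hre, him] at h3
    linear_combination h3 - h1 - l * (h2 - h1)
  rcases mul_eq_zero.mp key with h4 | h4
  · rcases mul_eq_zero.mp h4 with h5 | h5
    · apply hac; rw [hl, h5]; simp
    · apply hbc; rw [hl, sub_eq_zero.mp h5]; simp
  · exact hN h4

lemma regular_noncollinear {n : ℕ} (hn : 3 ≤ n) (w : Fin n → ℂ) (hw : IsRegularPolygon w)
    (p q r : Fin n) (hpq : p ≠ q) (hpr : p ≠ r) (hqr : q ≠ r) : T (w p) (w q) (w r) ≠ 0 := by
  obtain ⟨c, z, hz, hw⟩ := hw
  have hroot : IsPrimitiveRoot (Complex.exp (2 * Real.pi * Complex.I / n)) n :=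
    Complex.isPrimitiveRoot_exp n (by omega)
  obtain ⟨ζ, hζ, hzn, hwz⟩ : ∃ ζ : ℂ, IsPrimitiveRoot ζ n ∧ ‖ζ‖ = 1 ∧
      ∀ k : Fin n, w k = c + z * ζ ^ (k : ℕ) := by
    rcases hw with hw | hw
    · refine ⟨_, hroot, hroot.norm'_eq_one (by omega), fun k => ?_⟩
      rw [hw k, ← Complex.exp_nat_mul]
      congr 3
      ring
    · refine ⟨_, hroot.inv, hroot.inv.norm'_eq_one (by omega), fun k => ?_⟩
      rw [hw k, ← Complex.exp_neg, ← Complex.exp_nat_mul]
      congr 3
      ring
  have hinj : ∀ i j : Fin n, i ≠ j → w i - c ≠ w j - c := by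
    intro i j hij h
    apply hij
    apply Fin.ext
    apply hζ.pow_inj i.2 j.2
    rw [hwz i, hwz j] at h
    have h2 : z * ζ ^ (i : ℕ) = z * ζ ^ (j : ℕ) := by linear_combination h
    exact mul_left_cancel₀ hz h2
  have hnorm : ∀ i : Fin n, (w i - c).re * (w i - c).re + (w i - c).im * (w i - c).im =
      Complex.normSq z := by
    intro i
    rw [← Complex.normSq_apply, hwz i]
    have : c + z * ζ ^ (i : ℕ) - c = z * ζ ^ (i : ℕ) := by ring
    rw [this, map_mul, map_pow, Complex.normSq_eq_norm_sq ζ, hzn]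
    simp
  have key := circle (w p - c) (w q - c) (w r - c) (hinj _ _ hpq) (hinj _ _ hpr) (hinj _ _ hqr)
    (Complex.normSq z) (hnorm p) (hnorm q) (hnorm r)
  have e : T (w p - c) (w q - c) (w r - c) = T (w p) (w q) (w r) := by
    simp only [T, Complex.sub_re, Complex.sub_im]; ring
  rwa [e] at key

/-- **Theorem.** Let `n ≥ 3` and let `v` be any simple polygon with `n` vertices. Then `v` can be
carried to a regular polygon by a finite sequence of vertex-centroid moves. Indeed `v` can be
carried to every regular polygon with `n` vertices, of any centre, size, position and orientation. -/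
theorem result (n : ℕ) (hn : 3 ≤ n) (v : Fin n → ℂ) (hv : IsSimplePolygon v) :
    (∃ w : Fin n → ℂ, IsRegularPolygon w ∧ CanBeCarried v w) ∧
      ∀ w : Fin n → ℂ, IsRegularPolygon w → CanBeCarried v w := by
  have key : ∀ w : Fin n → ℂ, IsRegularPolygon w → CanBeCarried v w := by
    intro w hw
    obtain ⟨p, q, r, hpq, hpr, hqr, hT⟩ := simple_noncollinear hn v hv
    exact main hn v w p q r hpq hpr hqr hT (regular_noncollinear hn w hw p q r hpq hpr hqr)
  refine ⟨?_, key⟩
  have hreg : IsRegularPolygon (fun k : Fin n =>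
      (0 : ℂ) + 1 * Complex.exp (2 * Real.pi * Complex.I * k / n)) :=
    ⟨0, 1, one_ne_zero, Or.inl fun k => rfl⟩
  exact ⟨_, hreg, key _ hreg⟩

end Pool.Agent.Results.MP_06c496_co.EveryRegularPolygon
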